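import Pool.Agent.W2helper44.NR.Stm

/-!
# Project NR: isotypic modules
-/

set_option autoImplicit false

namespace Pool.Agent.W2helper44.NR

open Module LinearMap

namespace H98

section

variable {K V : Type} [Field K] [AddCommGroup V] [Module K V] (J : Submodule K (End K V))

/-- the algebra generated by `J` -/
abbrev Al : Subalgebra K (End K V) := Algebra.adjoin K (J : Set (End K V))

theorem adj_mem {W : Submodule K V} (hW : ∀ y ∈ J, ∀ w ∈ W, y w ∈ W) (a : End K V)
    (ha : a ∈ Algebra.adjoin K (J : Set (End K V))) : ∀ w ∈ W, a w ∈ W := by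
  induction ha using Algebra.adjoin_induction with
  | mem x hx => exact fun w hw => hW x hx w hw
  | algebraMap r => exact fun w hw => W.smul_mem r hw
  | add x y _ _ hx hy => exact fun w hw => W.add_mem (hx w hw) (hy w hw)
  | mul x y _ _ hx hy => exact fun w hw => hx _ (hy w hw)

/-- a `J`-stable subspace as a submodule over the algebra generated by `J` -/
def sm (W : Submodule K V) (hW : ∀ y ∈ J, ∀ w ∈ W, y w ∈ W) : Submodule (Al J) V where
  carrier := W
  add_mem' := W.add_mem
  zero_mem' := W.zero_mem
  smul_mem' := by
    rintro ⟨a, ha⟩ w hw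
    exact adj_mem J hW a ha w hw

theorem mem_sm {W : Submodule K V} {hW : ∀ y ∈ J, ∀ w ∈ W, y w ∈ W} {v : V} :
    v ∈ sm J W hW ↔ v ∈ W := Iff.rfl

/-- an operator which commutes with `J` as a linear map over the algebra generated by `J` -/
def lm (x : End K V) (hx : ∀ y ∈ J, x * y = y * x) : V →ₗ[Al J] V where
  toFun := x
  map_add' := x.map_add
  map_smul' := by
    rintro ⟨a, ha⟩ v
    show x (a v) = a (x v)
    revert v
    induction ha using Algebra.adjoin_induction with
    | mem y hy => exact fun v => LinearMap.congr_fun (hx y hy) v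
    | algebraMap r => exact fun _ => x.map_smul r _
    | add y z _ _ hy hz =>
      intro v
      rw [LinearMap.add_apply, x.map_add, hy, hz, LinearMap.add_apply]
    | mul y z _ _ hy hz =>
      intro v
      show x (y (z v)) = y (z (x v))
      rw [hy, hz]

theorem stable_of (W : Submodule (Al J) V) {y : End K V} (hy : y ∈ J) {v : V} (hv : v ∈ W) :
    y v ∈ W :=
  W.smul_mem (⟨y, Algebra.subset_adjoin hy⟩ : Al J) hv

/-- a submodule over the algebra generated by `J` as a subspace -/
def rs (W : Submodule (Al J) V) : Submodule K V where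
  carrier := W
  add_mem' := W.add_mem
  zero_mem' := W.zero_mem
  smul_mem' := fun c _ hv => W.smul_mem (algebraMap K (Al J) c) hv

end

end H98

open H98

theorem p_ISO : P_ISO := by
  intro K V _ _ _ _ J S hS
  let SA := sm J S hS.stable
  have hsimple : IsSimpleModule (Al J) SA := by
    rw [isSimpleModule_iff_isAtom]
    refine ⟨?_, ?_⟩
    · intro h
      apply hS.ne
      rw [Submodule.eq_bot_iff] at h ⊢
      exact h
    · intro T hT
      have h1 := hS.minimal (rs J T) (fun v hv => hT.le hv) (fun y hy s hs => stable_of J T hy hs)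
      rcases h1 with h1 | h1
      · rw [Submodule.eq_bot_iff] at h1 ⊢
        exact h1
      · exfalso
        apply hT.not_ge
        intro v hv
        have : v ∈ rs J T := by
          rw [h1]
          exact hv
        exact this
  have htop : isotypicComponent (Al J) V SA = ⊤ := by
    rw [eq_top_iff]
    intro v _
    have h1 := hS.span v
    have h2 : Submodule.span K {w : V | ∃ x : End K V, (∀ y ∈ J, x * y = y * x) ∧
        ∃ s ∈ S, w = x s} ≤ rs J (isotypicComponent (Al J) V SA) := by
      rw [Submodule.span_le]
      rintro w ⟨x, hx, s, hs, rfl⟩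
      exact Submodule.map_le_isotypicComponent SA (lm J x hx) ⟨s, hs, rfl⟩
    exact h2 h1
  have hiso : IsIsotypicOfType (Al J) V SA := IsIsotypicOfType.of_isotypicComponent_eq_top htop
  have hss : IsSemisimpleModule (Al J) V := by
    have h1 : IsSemisimpleModule (Al J) (isotypicComponent (Al J) V SA) := inferInstance
    rw [htop] at h1
    have e : V ≃ₗ[Al J] (⊤ : Submodule (Al J) V) := Submodule.topEquiv.symm
    exact IsSemisimpleModule.congr (M := (⊤ : Submodule (Al J) V)) e
  refine ⟨?_, ?_⟩
  · intro W hW
    have h1 : IsIsotypicOfType (Al J) (sm J W hW) SA :=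
      hiso.of_injective (sm J W hW).subtype (sm J W hW).subtype_injective
    have hfin : Module.Finite (Al J) (sm J W hW) := by
      have : Module.Finite K (sm J W hW) := inferInstanceAs (Module.Finite K W)
      exact Module.Finite.of_restrictScalars_finite K (Al J) _
    obtain ⟨n, ⟨e⟩⟩ := h1.linearEquiv_fun
    have e' : W ≃ₗ[K] (Fin n → S) := e.restrictScalars K
    rw [e'.finrank_eq, Module.finrank_pi_fintype, Finset.sum_const, smul_eq_mul]
    exact Dvd.intro_left _ rfl
  · obtain ⟨T, hT⟩ := exists_isCompl SA
    let p := SA.subtype ∘ₗ Submodule.projectionOnto SA T hT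
    refine ⟨p.restrictScalars K, ?_, ?_, ?_⟩
    · intro y hy
      ext v
      exact p.map_smul (⟨y, Algebra.subset_adjoin hy⟩ : Al J) v
    · intro v
      exact (Submodule.projectionOnto SA T hT v).2
    · intro s hs
      exact congrArg Subtype.val (Submodule.projectionOnto_apply_left hT ⟨s, hs⟩)

end Pool.Agent.W2helper44.NR
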